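import Mathlib

set_option autoImplicit false

namespace Pool.Agent.Results.MP_a762d4_al.ArcSemilattices

open FirstOrder Language Filter

/-- the single binary operation symbol -/
inductive MulSym : ℕ → Type
  | mul : MulSym 2

/-- the first-order language of one binary operation -/
def Lsg : Language := ⟨MulSym, fun _ => Empty⟩

/-- a set with a multiplication as a structure for that language -/
@[reducible] def strOf (S : Type) [Mul S] : Lsg.Structure S where
  funMap := fun f x => match f, x with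
    | MulSym.mul, x => x 0 * x 1
  RelMap := fun r _ => r.elim

/-- `S` satisfies the identical inclusion of `u` in `V` -/
def Sat (S : Type) [Semigroup S] (u : FreeSemigroup ℕ) (V : Set (FreeSemigroup ℕ)) : Prop :=
  ∀ φ : FreeSemigroup ℕ →ₙ* S, ∃ v ∈ V, φ u = φ v

/-- `S` satisfies all identical inclusions of the set `E` -/
def InVar (E : Set (FreeSemigroup ℕ × Set (FreeSemigroup ℕ))) (S : Type) [Semigroup S] : Prop :=
  ∀ p ∈ E, Sat S p.1 p.2

def P (s t : ℝ) : Set ℝ := {x | ∃ n : ℤ, s ≤ x + n ∧ x + n ≤ t}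

theorem P_shift (s t : ℝ) (k : ℤ) : P (s - k) (t - k) = P s t := by
  ext x
  constructor
  · rintro ⟨n, h1, h2⟩; exact ⟨n + k, by push_cast; linarith, by push_cast; linarith⟩
  · rintro ⟨n, h1, h2⟩; exact ⟨n - k, by push_cast; linarith, by push_cast; linarith⟩

theorem P_inter {r s t s' t' z : ℝ} (hr : r < 1 / 2) (h : t ≤ s + r) (h' : t' ≤ s' + r)
    (a : s ≤ z) (b : z ≤ t) (a' : s' ≤ z) (b' : z ≤ t') :
    P s t ∩ P s' t' = P (max s s') (min t t') := by
  ext x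
  constructor
  · rintro ⟨⟨n, h1, h2⟩, ⟨k, h3, h4⟩⟩
    have e1 : n - k < 1 := by
      have : ((n - k : ℤ) : ℝ) < (1 : ℤ) := by push_cast; linarith
      exact_mod_cast this
    have e2 : k - n < 1 := by
      have : ((k - n : ℤ) : ℝ) < (1 : ℤ) := by push_cast; linarith
      exact_mod_cast this
    obtain rfl : n = k := by omega
    exact ⟨n, max_le h1 h3, le_min h2 h4⟩
  · rintro ⟨n, h1, h2⟩
    exact ⟨⟨n, le_of_max_le_left h1, (le_min_iff.1 h2).1⟩,
      ⟨n, le_of_max_le_right h1, (le_min_iff.1 h2).2⟩⟩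

def IsArc (r : ℝ) (A : Set ℝ) : Prop := ∃ s t, t ≤ s + r ∧ A = P s t

theorem IsArc.norm {r z : ℝ} {A : Set ℝ} (h : IsArc r A) (hz : z ∈ A) :
    ∃ s t, t ≤ s + r ∧ A = P s t ∧ s ≤ z ∧ z ≤ t := by
  obtain ⟨s, t, h1, rfl⟩ := h
  obtain ⟨n, h2, h3⟩ := hz
  exact ⟨s - n, t - n, by linarith, (P_shift s t n).symm, by linarith, by linarith⟩

theorem IsArc.inter {r : ℝ} (hr : r < 1 / 2) {A B : Set ℝ} (hA : IsArc r A) (hB : IsArc r B) :
    IsArc r (A ∩ B) := by
  rcases (A ∩ B).eq_empty_or_nonempty with h | ⟨z, h1, h2⟩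
  · refine ⟨1 + |r|, 0, by linarith [neg_abs_le r], h.trans (Set.eq_empty_of_forall_notMem ?_).symm⟩
    rintro x ⟨n, h1, h2⟩
    linarith [abs_nonneg r]
  · obtain ⟨s, t, a1, rfl, a2, a3⟩ := hA.norm h1
    obtain ⟨s', t', b1, rfl, b2, b3⟩ := hB.norm h2
    exact ⟨_, _, (min_le_left _ _).trans (a1.trans (by gcongr; exact le_max_left _ _)),
      P_inter hr a1 b1 a2 a3 b2 b3⟩

theorem triple {r z : ℝ} (hr : r < 1 / 2) {A B C : Set ℝ} (hA : IsArc r A) (hB : IsArc r B)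
    (hC : IsArc r C) (hz : z ∈ A ∩ B ∩ C) :
    A ∩ B ∩ C = A ∩ B ∩ B ∨ A ∩ B ∩ C = B ∩ C ∩ C ∨ A ∩ B ∩ C = C ∩ A ∩ A := by
  obtain ⟨s, t, a1, rfl, a2, a3⟩ := hA.norm hz.1.1
  obtain ⟨s', t', b1, rfl, b2, b3⟩ := hB.norm hz.1.2
  obtain ⟨s'', t'', c1, rfl, c2, c3⟩ := hC.norm hz.2
  simp only [Set.inter_assoc, Set.inter_self]
  rw [P_inter hr b1 c1 b2 b3 c2 c3, P_inter hr a1 b1 a2 a3 b2 b3, P_inter hr c1 a1 c2 c3 a2 a3,
    P_inter hr a1 ((min_le_left _ _).trans (b1.trans (by gcongr; exact le_max_left _ _))) a2 a3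
      (max_le b2 c2) (le_min b3 c3)]
  have : (max s (max s' s'') = max s s' ∧ min t (min t' t'') = min t t') ∨
      (max s (max s' s'') = max s' s'' ∧ min t (min t' t'') = min t' t'') ∨
      (max s (max s' s'') = max s'' s ∧ min t (min t' t'') = min t'' t) := by
    clear * -
    grind
  rcases this with h | h | h <;> simp [h.1, h.2]

noncomputable def d (a b : ℝ) : ℝ := (b - a) - round (b - a)

theorem d_eq {r s t s' t' z : ℝ} (hr : r < 1 / 2) (h : t ≤ s + r) (h' : t' ≤ s' + r) {n k : ℤ}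
    (a : s ≤ z + n) (b : z + n ≤ t) (a' : s' ≤ z + k) (b' : z + k ≤ t') :
    d s s' = (z + n - s) - (z + k - s') := by
  have : round (s' - s) = k - n := by
    rw [round_eq, Int.floor_eq_iff]
    push_cast
    constructor <;> linarith
  rw [d, this]
  push_cast
  ring

theorem winding {r : ℝ} (hr : r < 1 / 2) (N : ℕ) (hN : 6 * (N + 1) * r < 3 * N + 2)
    (s t : ℕ → ℝ) (hst : ∀ k, t k ≤ s k + r) (hs : ∀ k, s (k + 6 * (N + 1)) = s k)
    (ht : ∀ k, t (k + 6 * (N + 1)) = t k)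
    (h : ∀ k i j, i ≤ 3 * N + 2 → j ≤ 3 * N + 2 →
      (P (s k) (t k) ∩ P (s (k + i)) (t (k + i)) ∩ P (s (k + j)) (t (k + j))).Nonempty) :
    (P (s 0) (t 0) ∩ P (s (2 * (N + 1))) (t (2 * (N + 1))) ∩
      P (s (4 * (N + 1))) (t (4 * (N + 1)))).Nonempty := by
  let L : ℕ → ℝ := fun k => ∑ i ∈ Finset.range k, d (s i) (s (i + 1))
  have hL : ∀ k j, j ≤ 3 * N + 2 → L (k + j) - L k = d (s k) (s (k + j)) := by
    intro k j
    induction j with
    | zero => intro _; simp [d]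
    | succ j ih =>
      intro hj
      obtain ⟨z, ⟨⟨n, a1, a2⟩, ⟨m, b1, b2⟩⟩, ⟨l, c1, c2⟩⟩ := h k j (j + 1) (by omega) hj
      have e := ih (by omega)
      have e1 : L (k + (j + 1)) = L (k + j) + d (s (k + j)) (s (k + (j + 1))) :=
        Finset.sum_range_succ _ _
      rw [d_eq hr (hst _) (hst _) a1 a2 b1 b2] at e
      rw [e1, d_eq hr (hst _) (hst _) b1 b2 c1 c2, d_eq hr (hst _) (hst _) a1 a2 c1 c2]
      linarith
  have hb : ∀ k j, j ≤ 3 * N + 2 →
      L (k + j) - L k ≤ t k - s k ∧ L k - L (k + j) ≤ t (k + j) - s (k + j) := fun k j hj => by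
    obtain ⟨z, ⟨⟨n, a1, a2⟩, ⟨m, b1, b2⟩⟩, -⟩ := h k j j hj hj
    have e := hL k j hj
    rw [d_eq hr (hst _) (hst _) a1 a2 b1 b2] at e
    constructor <;> linarith
  have hint : ∀ k, ∃ n : ℤ, L k = s k - s 0 + n := fun k => by
    induction k with
    | zero => exact ⟨0, by simp [L]⟩
    | succ k ih =>
      obtain ⟨n, hn⟩ := ih
      refine ⟨n - round (s (k + 1) - s k), ?_⟩
      have e1 : L (k + 1) = L k + d (s k) (s (k + 1)) := Finset.sum_range_succ _ _
      rw [e1, hn, d]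
      push_cast
      ring
  have hper : ∀ k, L (k + 6 * (N + 1)) = L k + L (6 * (N + 1)) := fun k => by
    induction k with
    | zero => simp [L]
    | succ k ih =>
      have e1 : L (k + 1) = L k + d (s k) (s (k + 1)) := Finset.sum_range_succ _ _
      have e2 : L (k + 6 * (N + 1) + 1) = L (k + 6 * (N + 1)) +
        d (s (k + 6 * (N + 1))) (s (k + 6 * (N + 1) + 1)) := Finset.sum_range_succ _ _
      rw [add_right_comm k 1, e2, ih, e1, hs, add_right_comm k _ 1, hs]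
      ring
  have hmul : ∀ k : ℕ, L (k * (6 * (N + 1))) = k * L (6 * (N + 1)) := fun k => by
    induction k with
    | zero => simp [L]
    | succ k ih => rw [add_mul, one_mul, hper, ih]; push_cast; ring
  have hbd : ∀ k : ℕ, |L (k * (3 * N + 2))| ≤ k * r := fun k => by
    induction k with
    | zero => simp [L]
    | succ k ih =>
      obtain ⟨b1, b2⟩ := hb (k * (3 * N + 2)) (3 * N + 2) le_rfl
      have := hst (k * (3 * N + 2))
      have := hst (k * (3 * N + 2) + (3 * N + 2))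
      rw [add_mul, one_mul, abs_le]
      rw [abs_le] at ih
      push_cast
      constructor <;> linarith
  have hw : L (6 * (N + 1)) = 0 := by
    obtain ⟨n, hn⟩ := hint (0 + 6 * (N + 1))
    rw [hs, zero_add, sub_self, zero_add] at hn
    have h1 := hbd (6 * (N + 1))
    rw [mul_comm, hmul, hn, abs_mul, Nat.abs_cast] at h1
    by_contra h0
    have h2 : (1 : ℝ) ≤ |(n : ℝ)| := by
      have : n ≠ 0 := fun h => h0 (by rw [hn, h, Int.cast_zero])
      exact_mod_cast Int.one_le_abs this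
    push_cast at h1
    nlinarith
  have b0 := hb 0 0 (by omega)
  have b1 := hb 0 (2 * (N + 1)) (by omega)
  have b2 := hb (2 * (N + 1)) (2 * (N + 1)) (by omega)
  have b3 := hb (4 * (N + 1)) (2 * (N + 1)) (by omega)
  have b4 := hb (2 * (N + 1)) 0 (by omega)
  have b5 := hb (4 * (N + 1)) 0 (by omega)
  have hs0 := hs 0
  have ht0 := ht 0
  have hL0 : L 0 = 0 := by simp [L]
  rw [show 2 * (N + 1) + 2 * (N + 1) = 4 * (N + 1) by ring] at b2
  rw [show 4 * (N + 1) + 2 * (N + 1) = 6 * (N + 1) by ring] at b3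
  simp only [zero_add, add_zero] at b0 b1 b4 b5 hs0 ht0
  rw [hw, hs0, ht0] at b3
  obtain ⟨n, hn⟩ := hint (2 * (N + 1))
  obtain ⟨m, hm⟩ := hint (4 * (N + 1))
  obtain ⟨z, z1, z2, z3, z4⟩ : ∃ z, 0 ≤ z ∧ L (2 * (N + 1)) ≤ z ∧ L (4 * (N + 1)) ≤ z ∧
      (z = 0 ∨ z = L (2 * (N + 1)) ∨ z = L (4 * (N + 1))) :=
    ⟨max 0 (max _ _), le_max_left _ _, le_max_of_le_right (le_max_left _ _),
      le_max_of_le_right (le_max_right _ _), (max_choice _ _).imp_right fun h => by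
        rw [h]; exact max_choice _ _⟩
  refine ⟨s 0 + z, ⟨⟨0, ?_, ?_⟩, ⟨-n, ?_, ?_⟩⟩, ⟨-m, ?_, ?_⟩⟩ <;> push_cast <;>
    rcases z4 with z4 | z4 | z4 <;> linarith [b0.1, b1.1, b1.2, b2.1, b2.2, b3.1, b3.2, b4.1, b5.1]

def Arc (r : ℝ) : Type := {A : Set ℝ // IsArc r A}

noncomputable def rad (n : ℕ) : ℝ := 1 / 2 - 1 / (n + 1)

theorem rad_lt (n : ℕ) : rad n < 1 / 2 := sub_lt_self _ (by positivity)

instance arcSemigroup (n : ℕ) : Semigroup (Arc (rad n)) where
  mul A B := ⟨A.1 ∩ B.1, A.2.inter (rad_lt n) B.2⟩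
  mul_assoc _ _ _ := Subtype.ext (Set.inter_assoc _ _ _)

noncomputable def pos (k : ℕ) : ℝ := ((Denumerable.eqv ℚ).symm k : ℚ)

def var (q : ℚ) : ℕ := Denumerable.eqv ℚ q

theorem pos_var (q : ℚ) : pos (var q) = q := by simp [pos, var]

open FreeSemigroup in
def U0 : FreeSemigroup ℕ := of (var 0) * of (var (1 / 3)) * of (var (2 / 3))

open FreeSemigroup in
def V0 : Set (FreeSemigroup ℕ) := {w | ∃ x y z, w = of x * of y * of z ∧
  ∃ s ρ : ℝ, ρ < 1 / 2 ∧ pos x ∈ P s (s + ρ) ∧ pos y ∈ P s (s + ρ) ∧ pos z ∈ P s (s + ρ)}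

theorem mem_V0 {x y z : ℚ} (s ρ : ℝ) (h : ρ < 1 / 2) (hx : (x : ℝ) ∈ P s (s + ρ))
    (hy : (y : ℝ) ∈ P s (s + ρ)) (hz : (z : ℝ) ∈ P s (s + ρ)) :
    FreeSemigroup.of (var x) * FreeSemigroup.of (var y) * FreeSemigroup.of (var z) ∈ V0 :=
  ⟨_, _, _, rfl, s, ρ, h, by rwa [pos_var], by rwa [pos_var], by rwa [pos_var]⟩

theorem arc_sat (n : ℕ) : Sat (Arc (rad n)) U0 V0 := by
  intro φ
  let A : ℚ → Set ℝ := fun q => (φ (FreeSemigroup.of (var q))).1
  have hA : ∀ q, IsArc (rad n) (A q) := fun q => (φ _).2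
  have hv : ∀ x y z, (φ (FreeSemigroup.of (var x) * FreeSemigroup.of (var y) *
      FreeSemigroup.of (var z))).1 = A x ∩ A y ∩ A z := fun x y z => by
    rw [map_mul, map_mul]; rfl
  by_contra hc
  push Not at hc
  have hne : ∀ x y z, FreeSemigroup.of (var x) * FreeSemigroup.of (var y) *
      FreeSemigroup.of (var z) ∈ V0 → A 0 ∩ A (1 / 3) ∩ A (2 / 3) ≠ A x ∩ A y ∩ A z :=
    fun x y z h e => hc _ h (Subtype.ext (by rw [hv, ← e]; exact hv _ _ _))
  rcases (A 0 ∩ A (1 / 3) ∩ A (2 / 3)).eq_empty_or_nonempty with h | ⟨z, hz⟩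
  · obtain ⟨N, hN⟩ : ∃ N : ℕ, 6 * (N + 1) * rad n < 3 * N + 2 := by
      refine ⟨n, ?_⟩
      rw [rad]
      field_simp
      nlinarith
    choose s t hst hP using hA
    let τ : ℕ → ℚ := fun k => Int.fract ((k : ℚ) / (6 * (N + 1)))
    have hτ : ∀ k, τ (k + 6 * (N + 1)) = τ k := fun k => by
      have : ((k + 6 * (N + 1) : ℕ) : ℚ) / (6 * (N + 1)) = k / (6 * (N + 1)) + 1 := by
        push_cast; field_simp
      simp only [τ, this, Int.fract_add_one]
    have hm : ∀ k i : ℕ, i ≤ 3 * N + 2 → (τ (k + i) : ℝ) ∈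
        P (k / (6 * (N + 1))) (k / (6 * (N + 1)) + (3 * N + 2) / (6 * (N + 1))) := by
      intro k i hi
      have e : (τ (k + i) : ℝ) + (⌊((k + i : ℕ) : ℚ) / (6 * (N + 1))⌋ : ℤ) =
          k / (6 * (N + 1)) + i / (6 * (N + 1)) := by
        have := congrArg (fun q : ℚ => (q : ℝ))
          (Int.fract_add_floor (((k + i : ℕ) : ℚ) / (6 * (N + 1))))
        simp only [Rat.cast_add, Rat.cast_intCast] at this
        rw [this]
        push_cast
        ring
      have : (i : ℝ) ≤ 3 * N + 2 := by exact_mod_cast hi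
      refine ⟨_, e.ge.trans' (le_add_of_nonneg_right (by positivity)), e.le.trans ?_⟩
      gcongr
    have := winding (rad_lt n) N hN (fun k => s (τ k)) (fun k => t (τ k)) (fun k => hst _)
      (fun k => by simp only [hτ]) (fun k => by simp only [hτ]) (fun k i j hi hj => by
        simp only [← hP]
        rw [Set.nonempty_iff_ne_empty, ← h]
        refine (hne _ _ _ (mem_V0 _ _ ?_ (hm k 0 (by omega)) (hm k i hi) (hm k j hj))).symm
        rw [div_lt_div_iff₀ (by positivity) (by positivity)]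
        linarith)
    have t0 : τ 0 = 0 := by simp [τ]
    have t1 : τ (2 * (N + 1)) = 1 / 3 := by
      have : ((2 * (N + 1) : ℕ) : ℚ) / (6 * (N + 1)) = 1 / 3 := by push_cast; field_simp; ring
      simp only [τ, this]; norm_num
    have t2 : τ (4 * (N + 1)) = 2 / 3 := by
      have : ((4 * (N + 1) : ℕ) : ℚ) / (6 * (N + 1)) = 2 / 3 := by push_cast; field_simp; ring
      simp only [τ, this]; norm_num
    simp only [← hP, t0, t1, t2, h] at this
    exact Set.not_nonempty_empty this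
  · rcases triple (rad_lt n) (hA _) (hA _) (hA _) hz with h | h | h
    · exact hne _ _ _ (mem_V0 0 (1 / 3) (by norm_num) ⟨0, by norm_num, by norm_num⟩
        ⟨0, by norm_num, by norm_num⟩ ⟨0, by norm_num, by norm_num⟩) h
    · exact hne _ _ _ (mem_V0 (1 / 3) (1 / 3) (by norm_num) ⟨0, by norm_num, by norm_num⟩
        ⟨0, by norm_num, by norm_num⟩ ⟨0, by norm_num, by norm_num⟩) h
    · exact hne _ _ _ (mem_V0 (2 / 3) (1 / 3) (by norm_num) ⟨0, by norm_num, by norm_num⟩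
        ⟨1, by norm_num, by norm_num⟩ ⟨1, by norm_num, by norm_num⟩) h

open FreeSemigroup in
def E0 : Set (FreeSemigroup ℕ × Set (FreeSemigroup ℕ)) :=
  {(of 0 * of 0, {of 0}), (of 0 * of 1, {of 1 * of 0}), (U0, V0)}

theorem result : ∃ E : Set (FreeSemigroup ℕ × Set (FreeSemigroup ℕ)),
    (∀ p ∈ E, p.2.Nonempty) ∧
    (∀ (S : Type) [Semigroup S], InVar E S → ∀ x y : S, x * x = x ∧ x * y = y * x) ∧
    ¬ ∃ T : Lsg.Theory, ∀ (S : Type) [Semigroup S] [Nonempty S],
      (@Theory.Model Lsg S (strOf S) T ↔ InVar E S) := by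
  refine ⟨E0, ?_, fun S _ h x y => ⟨?_, ?_⟩, ?_⟩
  · rintro p (rfl | rfl | rfl)
    · exact ⟨_, rfl⟩
    · exact ⟨_, rfl⟩
    · exact ⟨_, mem_V0 (x := 0) (y := 0) (z := 0) 0 0 (by norm_num) ⟨0, by norm_num, by norm_num⟩
        ⟨0, by norm_num, by norm_num⟩ ⟨0, by norm_num, by norm_num⟩⟩
  · obtain ⟨v, rfl, hv⟩ := h _ (Or.inl rfl) (FreeSemigroup.lift fun _ => x)
    simpa using hv
  · obtain ⟨v, rfl, hv⟩ := h _ (Or.inr (Or.inl rfl))
      (FreeSemigroup.lift fun k => if k = 0 then x else y)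
    simpa using hv
  rintro ⟨T, hT⟩
  let f : ∀ (k n : ℕ), Arc (rad n) := fun k n =>
    ⟨P (pos k - rad n) (pos k), _, _, by simp, rfl⟩
  haveI hne : ∀ n, Nonempty (Arc (rad n)) := fun n => ⟨f 0 n⟩
  letI : ∀ n, Lsg.Structure (Arc (rad n)) := fun n => strOf _
  let u : Ultrafilter ℕ := hyperfilter ℕ
  let M := (u : Filter ℕ).Product fun n => Arc (rad n)
  let c : (∀ n, Arc (rad n)) → M := fun x => x
  letI : Mul M := ⟨fun a b => Structure.funMap (L := Lsg) MulSym.mul ![a, b]⟩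
  have hc : ∀ x y, c x * c y = c (x * y) := fun x y => by
    have := Ultraproduct.funMap_cast (L := Lsg) (u := u) MulSym.mul ![x, y]
    refine Eq.trans ?_ this
    change Structure.funMap (L := Lsg) MulSym.mul _ = Structure.funMap (L := Lsg) MulSym.mul _
    congr 1
    ext i
    fin_cases i <;> rfl
  have hs : Function.Surjective c := Quotient.mk_surjective
  letI : Semigroup M := ⟨fun a b e => by
    obtain ⟨a, rfl⟩ := hs a
    obtain ⟨b, rfl⟩ := hs b
    obtain ⟨e, rfl⟩ := hs e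
    simp only [hc, mul_assoc]⟩
  haveI : Nonempty M := ⟨c (f 0)⟩
  have hstr : strOf M = Ultraproduct.structure := by
    ext n g x
    · cases g
      exact congrArg (Structure.funMap (L := Lsg) (M := M) MulSym.mul)
        (funext fun i => by fin_cases i <;> rfl)
    · exact g.elim
  have hM : InVar E0 M := by
    rw [← hT, hstr]
    refine ⟨fun ψ hψ => (Ultraproduct.sentence_realize ψ).2 (Eventually.of_forall fun n => ?_)⟩
    refine ((hT (Arc (rad n))).2 ?_).realize_of_mem ψ hψ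
    rintro p (rfl | rfl | rfl)
    · exact fun φ => ⟨_, rfl, by rw [map_mul]; exact Subtype.ext (Set.inter_self _)⟩
    · exact fun φ => ⟨_, rfl, by rw [map_mul, map_mul]; exact Subtype.ext (Set.inter_comm _ _)⟩
    · exact arc_sat n
  obtain ⟨_, ⟨x, y, z, rfl, s, ρ, hρ, hx, hy, hz⟩, hv⟩ := hM _ (Or.inr (Or.inr rfl))
    (FreeSemigroup.lift fun k => c (f k))
  simp only [U0, map_mul, FreeSemigroup.lift_of, hc] at hv
  have h1 : ∀ᶠ n in (u : Filter ℕ), (f (var 0) * f (var (1 / 3)) * f (var (2 / 3))) n =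
    (f x * f y * f z) n := Quotient.exact hv
  have h2 : ∀ᶠ n in (u : Filter ℕ), ρ < rad n := by
    refine Eventually.filter_mono Nat.hyperfilter_le_atTop ?_
    have : Tendsto rad atTop (nhds (1 / 2 - 0)) :=
      tendsto_const_nhds.sub tendsto_one_div_add_atTop_nhds_zero_nat
    exact this.eventually (lt_mem_nhds (by simpa using hρ))
  obtain ⟨n, e, hn⟩ := (h1.and h2).exists
  have hm : ∀ k, pos k ∈ P s (s + ρ) → s ∈ (f k n).1 := fun k ⟨l, h1, h2⟩ =>
    ⟨-l, by push_cast; linarith, by push_cast; linarith⟩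
  have h3 : s ∈ ((f (var 0) * f (var (1 / 3)) * f (var (2 / 3))) n).1 := by
    rw [e]; exact ⟨⟨hm x hx, hm y hy⟩, hm z hz⟩
  obtain ⟨⟨⟨a, a1, a2⟩, ⟨b, b1, b2⟩⟩, ⟨e, e1, e2⟩⟩ := h3
  rw [pos_var] at a1 a2 b1 b2 e1 e2
  push_cast at a1 a2 b1 b2 e1 e2
  have := rad_lt n
  have i1 : b - a < 1 := by
    have : ((b - a : ℤ) : ℝ) < (1 : ℤ) := by push_cast; linarith
    exact_mod_cast this
  have i2 : e - b < 1 := by
    have : ((e - b : ℤ) : ℝ) < (1 : ℤ) := by push_cast; linarith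
    exact_mod_cast this
  have i3 : a - e < 0 := by
    have : ((a - e : ℤ) : ℝ) < (0 : ℤ) := by push_cast; linarith
    exact_mod_cast this
  omega

end Pool.Agent.Results.MP_a762d4_al.ArcSemilattices
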